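import Pool.Agent.W948.Geo.Main

/-!
# Isomorphism testing for geodetic graphs is polynomial-time equivalent to graph isomorphism

The first part is a polynomial-time reduction which maps a pair of arbitrary graphs to a pair of
geodetic graphs that are in addition 2-connected and of diameter at most five, preserving
isomorphism and non-isomorphism. The other two parts: isomorphism of geodetic graphs (or only of
2-connected geodetic graphs of diameter at most five) is decidable in polynomial time if and only
if isomorphism of arbitrary graphs is.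
-/

namespace Pool.Agent.Results.MP_f934c9_lc.GeodeticIsoGIComplete

open Pool.Agent.NPC Pool.Agent.NPC.R671 Pool.Agent.W948.Geo Pool.Agent.NPC.GeoC

theorem result :
    (∃ f : List Bool → List Bool, PolyTime f ∧
      ∀ (n m : ℕ) (G : SimpleGraph (Fin n)) (H : SimpleGraph (Fin m)),
        ∃ (n' m' : ℕ) (G' : SimpleGraph (Fin n')) (H' : SimpleGraph (Fin m')),
          f (bits (adjMatrix G, adjMatrix H)) = bits (adjMatrix G', adjMatrix H') ∧
          (Geodetic G' ∧ TwoConnected G' ∧ ∀ u v, G'.dist u v ≤ 5) ∧
          (Geodetic H' ∧ TwoConnected H' ∧ ∀ u v, H'.dist u v ≤ 5) ∧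
          (Nonempty (G ≃g H) ↔ Nonempty (G' ≃g H'))) ∧
    (IsoInP (fun _ G => Geodetic G) ↔ IsoInP (fun _ _ => True)) ∧
    (IsoInP (fun _ G => Geodetic G ∧ TwoConnected G ∧ ∀ u v, G.dist u v ≤ 5) ↔
      IsoInP (fun _ _ => True)) := by
  refine ⟨⟨red, polyTime_red, fun n m G H => ⟨_, _, outGraph (adjMatrix G),
    outGraph (adjMatrix H), red_bits G H, ⟨geodetic_out G, twoConnected_out G, dist_out G⟩,
    ⟨geodetic_out H, twoConnected_out H, dist_out H⟩, iso_out G H⟩⟩, ?_, ?_⟩
  · exact ⟨IsoInP.to_true fun n G => geodetic_out G, IsoInP.of_true⟩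
  · exact ⟨IsoInP.to_true fun n G => ⟨geodetic_out G, twoConnected_out G, dist_out G⟩,
      IsoInP.of_true⟩

end Pool.Agent.Results.MP_f934c9_lc.GeodeticIsoGIComplete
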